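import Mathlib

set_option autoImplicit false

namespace Pool.Agent.Results.MP_f151b7_co.Disproof

open Finset

/-- The complete split graph: a clique on `Fin b` joined to an independent set `Fin s`. -/
def splitGraph (b s : ℕ) : SimpleGraph (Fin b ⊕ Fin s) where
  Adj x y := x ≠ y ∧ (x.isLeft = true ∨ y.isLeft = true)
  symm := ⟨fun _ _ h => ⟨h.1.symm, h.2.symm⟩⟩
  loopless := ⟨fun _ h => h.1 rfl⟩

instance (b s : ℕ) : DecidableRel (splitGraph b s).Adj := fun x y =>
  inferInstanceAs (Decidable (x ≠ y ∧ (x.isLeft = true ∨ y.isLeft = true)))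

lemma degree_inl (b s : ℕ) (i : Fin b) : (splitGraph b s).degree (Sum.inl i) + 1 = b + s := by
  have h : (splitGraph b s).neighborFinset (Sum.inl i) = univ.erase (Sum.inl i) := by
    ext y
    rw [SimpleGraph.mem_neighborFinset]
    simp only [splitGraph, mem_erase, mem_univ, and_true, Sum.isLeft_inl, true_or]
    exact ne_comm
  rw [← SimpleGraph.card_neighborFinset_eq_degree, h, card_erase_add_one (mem_univ _)]
  simp

lemma degree_inr (b s : ℕ) (j : Fin s) : (splitGraph b s).degree (Sum.inr j) = b := by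
  have h : (splitGraph b s).neighborFinset (Sum.inr j) =
      (univ : Finset (Fin b)).map Function.Embedding.inl := by
    ext y
    rw [SimpleGraph.mem_neighborFinset]
    rcases y with y | y <;> simp [splitGraph]
  rw [← SimpleGraph.card_neighborFinset_eq_degree, h]
  simp

lemma two_mul_edges (b s : ℕ) :
    2 * (splitGraph b s).edgeSet.ncard + b = b * (b + s) + s * b := by
  have h := (splitGraph b s).sum_degrees_eq_twice_card_edges
  rw [Fintype.sum_sum_type] at h
  have h1 : ∑ i : Fin b, ((splitGraph b s).degree (Sum.inl i) + 1) = b * (b + s) := by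
    simp [degree_inl]
  have h2 : ∑ j : Fin s, (splitGraph b s).degree (Sum.inr j) = s * b := by
    simp [degree_inr]
  rw [sum_add_distrib] at h1
  simp only [sum_const, card_univ, Fintype.card_fin, smul_eq_mul, mul_one] at h1
  have h3 : (splitGraph b s).edgeSet.ncard = (splitGraph b s).edgeFinset.card := by
    rw [← SimpleGraph.coe_edgeFinset, Set.ncard_coe_finset]
  omega

lemma exists_poor_class (b s k q : ℕ) (hs : s < (k - b) * (q + 1))
    (c : Fin b ⊕ Fin s → Fin k) :
    ∃ i : Fin k, {e ∈ (splitGraph b s).edgeSet | ∃ v ∈ e, c v = i}.ncard ≤ q * b := by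
  classical
  set I : Finset (Fin k) := univ \ (univ.image (fun x : Fin b => c (Sum.inl x))) with hI
  have hIcard : k - b ≤ I.card := by
    have h1 : (univ.image (fun x : Fin b => c (Sum.inl x))).card ≤ b := by
      simpa using card_image_le (s := (univ : Finset (Fin b))) (f := fun x => c (Sum.inl x))
    have h2 := le_card_sdiff (univ.image (fun x : Fin b => c (Sum.inl x))) (univ : Finset (Fin k))
    simp only [card_univ, Fintype.card_fin, ← hI] at h2
    omega
  have hex : ∃ i ∈ I, (univ.filter (fun y : Fin s => c (Sum.inr y) = i)).card ≤ q := by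
    by_contra hcon
    push Not at hcon
    have h1 : I.card * (q + 1) ≤
        ∑ i ∈ I, (univ.filter (fun y : Fin s => c (Sum.inr y) = i)).card := by
      have := card_nsmul_le_sum I
        (fun i => (univ.filter (fun y : Fin s => c (Sum.inr y) = i)).card) (q + 1)
        (fun i hi => hcon i hi)
      simpa using this
    have h2 : ∑ i ∈ I, (univ.filter (fun y : Fin s => c (Sum.inr y) = i)).card ≤
        ∑ i : Fin k, (univ.filter (fun y : Fin s => c (Sum.inr y) = i)).card :=
      sum_le_sum_of_subset (subset_univ _)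
    have h3 : (univ : Finset (Fin s)).card =
        ∑ i : Fin k, (univ.filter (fun y : Fin s => c (Sum.inr y) = i)).card :=
      card_eq_sum_card_fiberwise (fun _ _ => mem_coe.2 (mem_univ _))
    simp only [card_univ, Fintype.card_fin] at h3
    have h4 : (k - b) * (q + 1) ≤ I.card * (q + 1) := Nat.mul_le_mul_right _ hIcard
    omega
  obtain ⟨i, hiI, hi⟩ := hex
  refine ⟨i, ?_⟩
  have hnot : ∀ x : Fin b, c (Sum.inl x) ≠ i := by
    intro x hx
    rw [hI, mem_sdiff] at hiI
    exact hiI.2 (mem_image.2 ⟨x, mem_univ _, hx⟩)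
  set A : Finset (Fin s) := univ.filter (fun y : Fin s => c (Sum.inr y) = i) with hA
  have hsub : {e ∈ (splitGraph b s).edgeSet | ∃ v ∈ e, c v = i} ⊆
      ↑((A ×ˢ (univ : Finset (Fin b))).image
        (fun p : Fin s × Fin b => s(Sum.inr p.1, Sum.inl p.2))) := by
    rintro e ⟨he, v, hv, hcv⟩
    obtain ⟨w, rfl⟩ := Sym2.mem_iff_exists.1 hv
    rcases v with v | v
    · exact absurd hcv (hnot v)
    · rcases w with w | w
      · refine mem_coe.2 (mem_image.2 ⟨(v, w), ?_, rfl⟩)
        simp [hA, hcv]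
      · simp [splitGraph] at he
  calc _ ≤ _ := Set.ncard_le_ncard hsub (Finset.finite_toSet _)
    _ = _ := Set.ncard_coe_finset _
    _ ≤ (A ×ˢ (univ : Finset (Fin b))).card := card_image_le
    _ = A.card * b := by simp
    _ ≤ q * b := Nat.mul_le_mul_right _ hi

theorem result :
    ∀ k : ℕ, 3 ≤ k →
      ∃ (V : Type) (_ : Fintype V) (G : SimpleGraph V),
        k.choose 2 ≤ G.edgeSet.ncard ∧
        ∀ c : V → Fin k, ∃ i : Fin k,
          (({e ∈ G.edgeSet | ∃ v ∈ e, c v = i}.ncard : ℕ) : ℝ) <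
              2 * (G.edgeSet.ncard : ℝ) / (2 * (k : ℝ) - 1) ∧
            {e ∈ G.edgeSet | ∃ v ∈ e, c v = i}.ncard ≤ ⌈(k : ℝ) / 3⌉₊ := by
  intro k hk
  have hceil : ⌈(k : ℝ) / 3⌉₊ = (k + 2) / 3 := by
    rw [Nat.ceil_eq_iff (by omega)]
    have h1 : (k + 2) / 3 * 3 ≤ k + 2 := Nat.div_mul_le_self _ _
    have h2 : k ≤ (k + 2) / 3 * 3 := by omega
    have h3 : 1 ≤ (k + 2) / 3 := by omega
    have h1' : (((k + 2) / 3 : ℕ) : ℝ) * 3 ≤ k + 2 := by exact_mod_cast h1
    have h2' : (k : ℝ) ≤ (((k + 2) / 3 : ℕ) : ℝ) * 3 := by exact_mod_cast h2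
    constructor
    · rw [Nat.cast_sub h3]
      push_cast
      linarith
    · linarith
  have hpos : (0 : ℝ) < 2 * (k : ℝ) - 1 := by
    have : (3 : ℝ) ≤ k := by exact_mod_cast hk
    linarith
  -- it is enough to find parameters with the right inequalities
  suffices h : ∃ b s q m : ℕ, 2 * m + b = b * (b + s) + s * b ∧ s < (k - b) * (q + 1) ∧
      k.choose 2 ≤ m ∧ q * b * (2 * k) < 2 * m + q * b ∧ q * b ≤ (k + 2) / 3 by
    obtain ⟨b, s, q, m, hm, hs, h1, h2, h3⟩ := h
    have hm' : (splitGraph b s).edgeSet.ncard = m := by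
      have := two_mul_edges b s
      omega
    refine ⟨Fin b ⊕ Fin s, inferInstance, splitGraph b s, hm' ▸ h1, fun c => ?_⟩
    obtain ⟨i, hi⟩ := exists_poor_class b s k q hs c
    refine ⟨i, ?_, hceil ▸ hi.trans h3⟩
    rw [hm', lt_div_iff₀ hpos]
    have hi' : (({e ∈ (splitGraph b s).edgeSet | ∃ v ∈ e, c v = i}.ncard : ℕ) : ℝ) ≤
        (q : ℝ) * b := by exact_mod_cast hi
    have h2' : (q : ℝ) * b * (2 * k) < 2 * m + q * b := by exact_mod_cast h2
    nlinarith
  rcases eq_or_ne k 4 with rfl | hk4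
  · exact ⟨1, 8, 2, 8, by norm_num, by norm_num, by decide, by norm_num, by norm_num⟩
  · set b := (k + 2) / 3 with hb
    refine ⟨b, 2 * (k - b) - 1, 1, (splitGraph b (2 * (k - b) - 1)).edgeSet.ncard,
      two_mul_edges _ _, by omega, ?_, ?_, by omega⟩
    · have h := two_mul_edges b (2 * (k - b) - 1)
      set m := (splitGraph b (2 * (k - b) - 1)).edgeSet.ncard
      rw [Nat.choose_two_right]
      apply Nat.div_le_of_le_mul
      obtain ⟨d, hd⟩ : ∃ d, k = b + d + 1 := ⟨k - b - 1, by omega⟩
      have e1 : 2 * (k - b) - 1 = 2 * d + 1 := by omega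
      have e2 : k - 1 = b + d := by omega
      rw [e1] at h
      rw [e2, hd]
      have hd1 : d + 1 ≤ 2 * b := by omega
      have hd2 : 2 * b ≤ d + 3 := by omega
      have hd3 : 1 ≤ d := by omega
      nlinarith
    · have h := two_mul_edges b (2 * (k - b) - 1)
      set m := (splitGraph b (2 * (k - b) - 1)).edgeSet.ncard
      obtain ⟨d, hd⟩ : ∃ d, k = b + d + 1 := ⟨k - b - 1, by omega⟩
      have e1 : 2 * (k - b) - 1 = 2 * d + 1 := by omega
      rw [e1] at h
      rw [hd]
      have hd1 : b + 1 ≤ 2 * d := by omega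
      have hb1 : 1 ≤ b := by omega
      nlinarith

end Pool.Agent.Results.MP_f151b7_co.Disproof
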