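import Pool.Agent.MP_f151b7_co.ET.Fam
import Pool.Agent.Results.MP_f151b7_co.Disproof

/-! The bound `2m / (2k - 1)` holds for all graphs with at least `2 (k - 1) (k - 2)` edges, and
this number of edges is the least possible. -/

set_option autoImplicit false

namespace Pool.Agent.Results.MP_f151b7_co.ExactThreshold

open Finset Pool.Agent.MP_f151b7_co.ET in
theorem result : ∀ k : ℕ, 2 ≤ k →
    IsLeast {m₀ : ℕ | ∀ (V : Type) (_ : Fintype V) (G : SimpleGraph V), m₀ ≤ G.edgeSet.ncard →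
      ∃ c : V → Fin k, ∀ i : Fin k,
        2 * (G.edgeSet.ncard : ℝ) / (2 * (k : ℝ) - 1) ≤
          (({e ∈ G.edgeSet | ∃ v ∈ e, c v = i}.ncard : ℕ) : ℝ)}
      (2 * (k - 1) * (k - 2)) := by
  intro k hk
  obtain ⟨j, rfl⟩ := Nat.exists_eq_add_of_le hk
  have p : (0 : ℝ) < 2 * ((2 + j : ℕ) : ℝ) - 1 := by push_cast; linarith [j.cast_nonneg (α := ℝ)]
  rw [show 2 + j - 1 = j + 1 by omega, Nat.add_sub_cancel_left]
  refine ⟨fun V _ G hm => ?_, fun m₀ h => not_lt.1 fun n => ?_⟩
  · classical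
    simp only [div_le_iff₀ p]
    have e := hand G
    generalize G.edgeSet.ncard = m at hm e ⊢
    rcases m.eq_zero_or_pos with rfl | m0
    · exact ⟨fun _ => ⟨0, by omega⟩, fun i => by
        simpa using mul_nonneg (Nat.cast_nonneg _) p.le⟩
    obtain ⟨τ, t1, t2⟩ : ∃ τ : ℕ, (2 * j + 3) * τ < 2 * m ∧ 2 * m ≤ (2 * j + 3) * (τ + 1) :=
      ⟨(2 * m - 1) / (2 * j + 3), (Nat.mul_div_le _ _).trans_lt (by omega), by
          have := Nat.lt_mul_div_succ (2 * m - 1) (show 0 < 2 * j + 3 by omega)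
          omega⟩
    obtain ⟨c, hc⟩ := colour G (τ := τ) (k := 2 + j) (by omega) (by
      by_cases z : ∃ z, (τ : ℝ) < (adj G).r z univ
      · obtain ⟨z, hz⟩ := z
        have a1 : 2 + j ≤ τ + 3 := by
          by_contra n
          nlinarith [Nat.mul_le_mul_left (2 * j + 3) (show τ + 1 + 1 ≤ j by omega)]
        have a2 : (j + 1) * (τ + 1) ≤ m := by
          rcases le_or_gt (τ + 1) (2 * j) with l | l
          · nlinarith [Nat.mul_le_mul_left (j + 1) l]
          · have : 2 * ((j + 1) * (τ + 1)) ≤ 2 * m + 1 := by nlinarith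
            omega
        refine Wt.Fam.centre (adj_le G) τ.cast_nonneg (by exact_mod_cast a1) ?_ hz
        have : ((j : ℝ) + 1) * (τ + 1) ≤ m := by exact_mod_cast a2
        push_cast
        linarith
      · have d : ∀ v, (adj G).r v univ ≤ τ := fun v => not_lt.1 fun n => z ⟨v, n⟩
        have b0 : ∀ Y, (adj G).β Y ∅ = 0 := fun Y => by simp [Wt.β, Wt.r]
        refine Wt.Fam.greedy (C := ∅) (b := 0) (κ := 3 * τ) τ.cast_nonneg le_rfl (by positivity)
          (disjoint_empty_right _) (fun v _ => d v) (fun v _ => by simp [Wt.r])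
          (fun Y _ h => Wt.Fam.two (fun v _ => d v) (by linarith [b0 Y])) j _ Subset.rfl ?_
        have : (2 * (j : ℝ) + 3) * τ < 2 * m := by exact_mod_cast t1
        linarith [b0 univ])
    refine ⟨c, fun i => ?_⟩
    have := Nat.mul_le_mul_left (2 * j + 3) (Nat.succ_le_of_lt (hc i))
    have := (Nat.cast_le (α := ℝ)).2 (t2.trans this)
    push_cast at this ⊢
    linarith
  · obtain ⟨s, hs⟩ : ∃ s, 2 * (j + 1) * j = s + 1 := ⟨_, (Nat.succ_pred_eq_of_pos (by omega)).symm⟩
    obtain ⟨q, hq⟩ : ∃ q, 2 * j = q + 1 :=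
      ⟨_, (Nat.succ_pred_eq_of_pos (Nat.pos_of_ne_zero fun e => by
        rw [show j = 0 by omega] at hs; omega)).symm⟩
    have e : (Disproof.splitGraph 1 s).edgeSet.ncard = s := by
      have := Disproof.two_mul_edges 1 s
      omega
    obtain ⟨c, hc⟩ := h _ inferInstance (Disproof.splitGraph 1 s) (by omega)
    obtain ⟨i, hi⟩ := Disproof.exists_poor_class 1 s (2 + j) q (by
      rw [show 2 + j - 1 = j + 1 by omega, ← hq]; linarith) c
    have k := (hc i).trans (Nat.cast_le.2 hi)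
    rw [e, div_le_iff₀ p] at k
    have h1 : 2 * ((j : ℝ) + 1) * j = s + 1 := by exact_mod_cast hs
    have h2 : 2 * (j : ℝ) = q + 1 := by exact_mod_cast hq
    push_cast at k
    nlinarith

end Pool.Agent.Results.MP_f151b7_co.ExactThreshold
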