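import Pool.Agent.MP_f151b7_co.ET.Reg
import Pool.Agent.MP_f151b7_co.ET.Save
import Pool.Agent.MP_f151b7_co.ET.Value

/-! The numbers of edges that force a partition into `k ≥ 4` classes each meeting more than `t`
edges. -/

set_option autoImplicit false

namespace Pool.Agent.Results.MP_f151b7_co.ExtremalNumber

open Finset Pool.Agent.MP_f151b7_co.ET in
theorem extremal : ∀ k t : ℕ, 4 ≤ k →
    IsGreatest {m : ℕ | ∃ (V : Type) (_ : Fintype V) (G : SimpleGraph V), G.edgeSet.ncard = m ∧
      ∀ c : V → Fin k, ∃ i : Fin k, {e ∈ G.edgeSet | ∃ v ∈ e, c v = i}.ncard ≤ t}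
      ((Finset.range k).sup fun b => b.choose 2 +
        if b ∣ t then b * ((k - b) * (t / b + 1) - 1)
        else if t + b + 2 ≤ 2 * k then (2 * (k - b) - 1) * (t + min b t) / 2 else 0) := by
  intro k t hk
  generalize eM : (range k).sup (α := ℕ) _ = M
  have c2 : ∀ b : ℕ, 2 * b.choose 2 = b * (b - 1) := fun b => by
    rw [Nat.choose_two_right, Nat.mul_div_cancel' b.even_mul_pred_self.two_dvd]
  have up : M ∈ upperBounds {m : ℕ | ∃ (V : Type) (_ : Fintype V) (G : SimpleGraph V),
      G.edgeSet.ncard = m ∧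
      ∀ c : V → Fin k, ∃ i : Fin k, {e ∈ G.edgeSet | ∃ v ∈ e, c v = i}.ncard ≤ t} := by
    rintro m ⟨V, _, G, hG, bad⟩
    classical
    by_contra n
    have lt := fun b (h : b < k) => (le_sup (mem_range.2 h)).trans_lt (eM ▸ not_le.1 n)
    suffices h : ∃ c : V → Fin k, ∀ i, t < {e ∈ G.edgeSet | ∃ v ∈ e, c v = i}.ncard by
      obtain ⟨c, hc⟩ := h
      obtain ⟨i, hi⟩ := bad c
      exact (hc i).not_ge hi
    rcases lt_or_ge t k with l | l
    · have e := hand G
      rw [hG] at e
      refine colour G (by omega) (Wt.Fam.all (fun u v => by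
        unfold adj; dsimp only; split_ifs <;> simp) (by omega) l (fun b j h d => ?_)
        fun b j h d => ?_)
      · have a := lt b (by omega)
        rw [if_pos d, show k - b = j + 1 by omega] at a
        obtain ⟨q, rfl⟩ := d
        have : 2 * b.choose 2 + 2 * (b * q) + j * (2 * (b * q + b)) < 2 * m := by
          rcases b.eq_zero_or_pos with rfl | p
          · simpa using a
          · rw [Nat.mul_div_cancel_left _ p, show (j + 1) * (q + 1) - 1 = j * (q + 1) + q by
              rw [add_mul, one_mul, ← add_assoc, Nat.add_sub_cancel]] at a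
            linarith
        have := (Nat.cast_lt (α := ℝ)).2 this
        push_cast [Nat.cast_choose_two] at this ⊢
        linarith
      · have a := lt b (by omega)
        rw [if_neg d, if_pos (by omega), show 2 * (k - b) - 1 = 2 * j + 1 by omega] at a
        have := (Nat.cast_lt (α := ℝ)).2
          (show 2 * b.choose 2 + (2 * j + 1) * (t + min b t) < 2 * m by omega)
        rw [Nat.cast_add, Nat.cast_mul, Nat.cast_choose_two] at this
        push_cast at this ⊢
        linarith
    · obtain ⟨j, rfl⟩ := Nat.exists_eq_add_of_le' hk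
      have a : (j + 3) * (t + 1) ≤ m := by
        have := lt 1 (by omega)
        simp only [one_dvd, if_true, Nat.div_one, show j + 4 - 1 = j + 3 from rfl] at this
        omega
      refine lower G (by nlinarith) (by omega) (hG ▸ a) fun e f => ?_
      have := lt 0 (by omega)
      rw [if_neg (by omega), if_pos (by omega), e, show (2 * (j + 4 - 0) - 1) *
        (2 * j + 6 + min 0 (2 * j + 6)) = 2 * ((2 * j + 7) * (j + 3)) by
          rw [show 2 * (j + 4 - 0) - 1 = 2 * j + 7 by omega, Nat.zero_min]; ring] at this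
      omega
  refine ⟨?_, up⟩
  obtain ⟨b, hb, e⟩ := (exists_mem_eq_sup (range k) ⟨0, mem_range.2 (by omega)⟩ _).imp
    fun _ h => And.intro h.1 (eM.symm.trans h.2)
  obtain ⟨j, rfl⟩ := Nat.exists_eq_add_of_lt (mem_range.1 hb)
  have sp : ∀ s q, s < (j + 1) * (q + 1) → q * b ≤ t → M = b.choose 2 + b * s →
      ∃ (V : Type) (_ : Fintype V) (G : SimpleGraph V), G.edgeSet.ncard = M ∧
        ∀ c : V → Fin (b + j + 1), ∃ i, {e ∈ G.edgeSet | ∃ v ∈ e, c v = i}.ncard ≤ t :=
    fun s q l h f => ⟨_, inferInstance, Disproof.splitGraph b s, by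
      have := Disproof.two_mul_edges b s
      have := c2 b
      rcases b with _ | b
      · omega
      · rw [Nat.add_sub_cancel] at this
        linarith, fun c => (Disproof.exists_poor_class b s _ q
          (by rwa [show b + j + 1 - b = j + 1 by omega]) c).imp fun _ x => x.trans h⟩
  rw [show b + j + 1 - b = j + 1 by omega] at e
  split_ifs at e with d d'
  · exact sp _ _ (Nat.sub_lt (by positivity) one_pos) (Nat.div_mul_le_self _ _) e
  · obtain ⟨G, l, bad⟩ := join b j t (by omega)
    refine ⟨_, inferInstance, G, le_antisymm (up ⟨_, inferInstance, G, rfl, bad⟩) ?_, bad⟩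
    rw [show 2 * (j + 1) - 1 = 2 * j + 1 by omega] at e
    have := c2 b
    omega
  · exact sp 0 0 (by omega) (by omega) e

theorem result : ∀ k t m : ℕ, 4 ≤ k →
    ((∀ (V : Type) (_ : Fintype V) (G : SimpleGraph V), G.edgeSet.ncard = m →
      ∃ c : V → Fin k, ∀ i : Fin k, t < {e ∈ G.edgeSet | ∃ v ∈ e, c v = i}.ncard) ↔
    ∀ b < k, (b.choose 2 +
      if b ∣ t then b * ((k - b) * (t / b + 1) - 1)
      else if t + b + 2 ≤ 2 * k then (2 * (k - b) - 1) * (t + min b t) / 2 else 0) < m) := by
  intro k t m hk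
  obtain ⟨⟨V, _, G, hG, bad⟩, up⟩ := extremal k t hk
  refine ⟨fun h b hb => ((Finset.le_sup (Finset.mem_range.2 hb)).trans_eq
    hG.symm).trans_lt (not_le.1 fun n => ?_), fun h V _ G hG => ?_⟩
  · obtain ⟨s, a, e⟩ := Set.exists_subset_card_eq n
    have f : (SimpleGraph.fromEdgeSet s).edgeSet = s := by
      rw [SimpleGraph.edgeSet_fromEdgeSet, sdiff_eq_left]
      exact Set.disjoint_left.2 fun x hx => G.not_isDiag_of_mem_edgeSet (a hx)
    obtain ⟨c, hc⟩ := h V inferInstance _ (f.symm ▸ e)
    obtain ⟨i, hi⟩ := bad c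
    rw [f] at hc
    refine (hc i).not_ge ((Set.ncard_le_ncard ?_).trans hi)
    exact fun x hx => ⟨a hx.1, hx.2⟩
  · by_contra n
    push Not at n
    obtain ⟨b, hb, e⟩ := (Finset.le_sup_iff (Nat.zero_le _ |>.trans_lt (h 0 (by omega)))).1
      (up ⟨V, inferInstance, G, hG, n⟩)
    exact (h b (Finset.mem_range.1 hb)).not_ge e

end Pool.Agent.Results.MP_f151b7_co.ExtremalNumber
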